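import Mathlib
import Pool.Agent.ST11.BPos
import Pool.Agent.ST50.Final

/-!
# P3R83: the general certificate against extremal points

Kernel `G(j,k) = c m(j,k)^2 + a_j ∑_l b^l_j ψ_l(k) + (k+1-j) β_g(j,k)` with arbitrary `c ≥ 0`,
`ψ_l : ℕ → ℝ`, `g : ℕ → ℝ` and `β_g(j,k) = ∑_{i ≤ min(j,k)} (a_i a_{N-i})^2 (g_{N-i} - g_i)`,
`N = j+k+1`.  If the form of `G` is positive definite and the form of `G diag(a_{k+1}/a_k)` is
nonnegative, then there is no extremal point for `2 ≤ r < 3`.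
-/

open Polynomial Finset

namespace Pool.Agent.P3R83

open Pool.Agent.ST50 Pool.Agent.ST11

/-- `β_g(j,k) = ∑_{i ≤ min(j,k)} (a_i a_{j+k+1-i})^2 (g_{j+k+1-i} - g_i)` -/
noncomputable def bg (a g : ℕ → ℝ) (j k : ℕ) : ℝ :=
  ∑ i ∈ range (min j k + 1), (g (j + k + 1 - i) - g i) * (a i * a (j + k + 1 - i)) ^ 2

/-- `β_g(j, k - 1)`, with value `0` for `k = 0` -/
noncomputable def bgp (a g : ℕ → ℝ) (j k : ℕ) : ℝ :=
  ∑ i ∈ range (min (j + 1) k), (g (j + k - i) - g i) * (a i * a (j + k - i)) ^ 2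

lemma bgp_succ (a g : ℕ → ℝ) (j k : ℕ) : bgp a g j (k + 1) = bg a g j k := by
  unfold bgp bg
  rw [← Nat.add_min_add_right, show j + (k + 1) = j + k + 1 by ring]

lemma bgp_zero (a g : ℕ → ℝ) (j : ℕ) : bgp a g j 0 = 0 := by
  unfold bgp
  simp

lemma bg_comm (a g : ℕ → ℝ) (j k : ℕ) : bg a g j k = bg a g k j := by
  unfold bg
  rw [min_comm, show k + j + 1 = j + k + 1 by ring]

lemma bgp_antisymm (a g : ℕ → ℝ) (j k : ℕ) :
    bgp a g j k - bgp a g k j = (g k - g j) * (a j * a k) ^ 2 := by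
  rcases lt_trichotomy j k with h | h | h
  · unfold bgp
    rw [min_eq_left (by omega : j + 1 ≤ k), min_eq_right (by omega : j ≤ k + 1),
      Finset.sum_range_succ, show j + k - j = k by omega, show k + j = j + k by ring]
    ring
  · subst h
    ring
  · unfold bgp
    rw [min_eq_right (by omega : k ≤ j + 1), min_eq_left (by omega : k + 1 ≤ j),
      Finset.sum_range_succ, show k + j - k = j by omega, show k + j = j + k by ring]
    ring

lemma bg_eq_zero {a : ℕ → ℝ} (g : ℕ → ℝ) {n : ℕ} (ha : ∀ k, n < k → a k = 0) (k : ℕ)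
    (hk : k ≤ n) : bg a g n k = 0 := by
  unfold bg
  refine Finset.sum_eq_zero (fun i hi => ?_)
  have : i ≤ k := by
    have := mem_range.mp hi
    omega
  rw [ha (n + k + 1 - i) (by omega)]
  ring

/-- the Bezout part vanishes: `∑ (k + 1 - j) β_g(j,k) x_j x_{k+1} = 0` -/
lemma identity_bezout {n : ℕ} {a x : ℕ → ℝ} (g : ℕ → ℝ) (ha : ∀ k, n < k → a k = 0)
    (h0 : ∑ k ∈ range (n + 1), a k ^ 2 * x k = 0)
    (h1 : ∑ k ∈ range (n + 1), (k : ℝ) * a k ^ 2 * x k = 0) :
    ∑ j ∈ range n, ∑ k ∈ range n, ((k : ℝ) + 1 - j) * bg a g j k * (x j * x (k + 1)) = 0 := by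
  have e1 : ∑ j ∈ range n, ∑ k ∈ range n, ((k : ℝ) + 1 - j) * bg a g j k * (x j * x (k + 1))
      = ∑ j ∈ range (n + 1), ∑ k ∈ range (n + 1), ((k : ℝ) - j) * bgp a g j k * (x j * x k) := by
    rw [Finset.sum_range_succ]
    have hlast : ∑ k ∈ range (n + 1), ((k : ℝ) - n) * bgp a g n k * (x n * x k) = 0 := by
      refine Finset.sum_eq_zero (fun k hk => ?_)
      rcases k with _ | k
      · rw [bgp_zero]; ring
      · rw [bgp_succ, bg_eq_zero g ha k (by have := mem_range.mp hk; omega)]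
        ring
    rw [hlast, add_zero]
    refine Finset.sum_congr rfl (fun j _ => ?_)
    rw [Finset.sum_range_succ', bgp_zero]
    simp only [mul_zero, zero_mul, add_zero]
    refine Finset.sum_congr rfl (fun k _ => ?_)
    rw [bgp_succ]
    push_cast
    ring
  rw [e1]
  have e2 : ∑ j ∈ range (n + 1), ∑ k ∈ range (n + 1), ((k : ℝ) - j) * bgp a g j k * (x j * x k)
      = ∑ j ∈ range (n + 1), ∑ k ∈ range (n + 1), ((j : ℝ) - k) * bgp a g k j * (x j * x k) := by
    rw [Finset.sum_comm]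
    refine Finset.sum_congr rfl (fun j _ => Finset.sum_congr rfl (fun k _ => ?_))
    ring
  have e3 : 2 * ∑ j ∈ range (n + 1), ∑ k ∈ range (n + 1), ((k : ℝ) - j) * bgp a g j k * (x j * x k)
      = ∑ j ∈ range (n + 1), ∑ k ∈ range (n + 1),
        ((a j ^ 2 * x j) * ((k : ℝ) * g k * a k ^ 2 * x k)
          - (g j * a j ^ 2 * x j) * ((k : ℝ) * a k ^ 2 * x k)
          - ((j : ℝ) * a j ^ 2 * x j) * (g k * a k ^ 2 * x k)
          + ((j : ℝ) * g j * a j ^ 2 * x j) * (a k ^ 2 * x k)) := by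
    rw [two_mul]
    nth_rewrite 2 [e2]
    rw [← Finset.sum_add_distrib]
    refine Finset.sum_congr rfl (fun j _ => ?_)
    rw [← Finset.sum_add_distrib]
    refine Finset.sum_congr rfl (fun k _ => ?_)
    have := bgp_antisymm a g j k
    linear_combination ((k : ℝ) - j) * (x j * x k) * this
  have e4 : ∑ j ∈ range (n + 1), ∑ k ∈ range (n + 1),
        ((a j ^ 2 * x j) * ((k : ℝ) * g k * a k ^ 2 * x k)
          - (g j * a j ^ 2 * x j) * ((k : ℝ) * a k ^ 2 * x k)
          - ((j : ℝ) * a j ^ 2 * x j) * (g k * a k ^ 2 * x k)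
          + ((j : ℝ) * g j * a j ^ 2 * x j) * (a k ^ 2 * x k)) = 0 := by
    simp_rw [Finset.sum_add_distrib, Finset.sum_sub_distrib, ← Finset.mul_sum]
    rw [← Finset.sum_mul, h0, ← Finset.sum_mul, h1, ← Finset.sum_mul, h1]
    simp
  linarith

/-- the `ψ` part vanishes: `∑ a_j ∑_l b^l_j ψ_l(k) x_j x_{k+1} = 0` -/
lemma identity_psi {ι : Type*} [DecidableEq ι] {s : Finset ι} {y : ι → ℝ} {x : ℕ → ℝ}
    (ψ : ι → ℕ → ℝ) (h0 : ∑ k ∈ range (s.card + 1), cf s y k ^ 2 * x k = 0)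
    (h1 : ∀ l ∈ s, ∑ k ∈ range (s.card + 1), cf s y k * cl s y l k * x k = 0) :
    ∑ j ∈ range s.card, ∑ k ∈ range s.card,
      (cf s y j * ∑ l ∈ s, cf (s.erase l) y j * ψ l k) * (x j * x (k + 1)) = 0 := by
  have hl : ∀ l ∈ s, ∑ j ∈ range s.card, cf s y j * cf (s.erase l) y j * x j = 0 := by
    intro l hl
    have e1 : ∑ j ∈ range (s.card + 1), cf s y j * cf (s.erase l) y j * x j = 0 := by
      have : ∀ j ∈ range (s.card + 1), cf s y j * cf (s.erase l) y j * x j
          = cf s y j ^ 2 * x j - cf s y j * cl s y l j * x j := by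
        intro j _
        unfold cl
        ring
      rw [Finset.sum_congr rfl this, Finset.sum_sub_distrib, h0, h1 l hl, sub_zero]
    rw [Finset.sum_range_succ, cf_eq_zero (s := s.erase l) y (k := s.card)
      (by rw [Finset.card_erase_of_mem hl]; have := Finset.card_pos.mpr ⟨l, hl⟩; omega)] at e1
    simpa using e1
  have e : ∀ j k : ℕ, (cf s y j * ∑ l ∈ s, cf (s.erase l) y j * ψ l k) * (x j * x (k + 1))
      = ∑ l ∈ s, (cf s y j * cf (s.erase l) y j * x j) * (ψ l k * x (k + 1)) := by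
    intro j k
    rw [Finset.mul_sum, Finset.sum_mul]
    refine Finset.sum_congr rfl (fun l _ => by ring)
  simp_rw [e]
  rw [Finset.sum_congr rfl (fun j _ => Finset.sum_comm), Finset.sum_comm]
  refine Finset.sum_eq_zero (fun l hls => ?_)
  rw [← Finset.sum_mul_sum, hl l hls, zero_mul]

/-- the kernel of a general certificate -/
noncomputable def gg (c : ℝ) (g : ℕ → ℝ) (ψ : ℕ → ℕ → ℝ) (s : Finset ℕ) (y : ℕ → ℝ)
    (j k : ℕ) : ℝ :=
  c * mm s y j k ^ 2 + cf s y j * ∑ l ∈ s, cf (s.erase l) y j * ψ l k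
    + ((k : ℝ) + 1 - j) * bg (cf s y) g j k

/-- the exact identities at an extremal point, combined -/
lemma ep_gg_nonpos {s : Finset ℕ} {y : ℕ → ℝ} (hy : ∀ l ∈ s, 0 < y l) {r c : ℝ} (hc : 0 ≤ c)
    (g : ℕ → ℝ) (ψ : ℕ → ℕ → ℝ)
    (h0 : ∑ k ∈ range (s.card + 1), (-1 : ℝ) ^ k * cf s y k ^ r = 0)
    (h1 : ∀ l ∈ s, ∑ k ∈ range s.card,
      (-1 : ℝ) ^ k * (cf s y (k + 1) ^ (r - 1) * cf (s.erase l) y k) = 0) :
    ∑ j ∈ range s.card, ∑ k ∈ range s.card,
      gg c g ψ s y j k * (cf s y (k + 1) / cf s y k) ^ (r - 2) *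
        (((-1 : ℝ) ^ j * cf s y j ^ (r - 2)) * ((-1 : ℝ) ^ k * cf s y k ^ (r - 2))) ≤ 0 := by
  have hpos : ∀ k ≤ s.card, 0 < cf s y k := fun k hk => cf_pos hy hk
  set x : ℕ → ℝ := fun k => (-1 : ℝ) ^ k * cf s y k ^ (r - 2) with hx
  -- EP conditions in terms of x
  have hA : ∑ k ∈ range (s.card + 1), cf s y k ^ 2 * x k = 0 := by
    rw [← h0]
    refine Finset.sum_congr rfl (fun k hk => ?_)
    have hk' := hpos k (by have := mem_range.mp hk; omega)
    simp only [hx]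
    rw [show cf s y k ^ r = cf s y k ^ (r - 2) * cf s y k ^ 2 by
      rw [← Real.rpow_natCast (cf s y k) 2, ← Real.rpow_add hk']
      congr 1
      push_cast
      ring]
    ring
  have hB : ∀ l ∈ s, ∑ k ∈ range (s.card + 1), cf s y k * cl s y l k * x k = 0 := by
    intro l hl
    rw [Finset.sum_range_succ', cl_zero]
    have e : ∑ k ∈ range s.card, cf s y (k + 1) * cl s y l (k + 1) * x (k + 1)
        = -(y l) * ∑ k ∈ range s.card,
          (-1 : ℝ) ^ k * (cf s y (k + 1) ^ (r - 1) * cf (s.erase l) y k) := by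
      rw [Finset.mul_sum]
      refine Finset.sum_congr rfl (fun k hk => ?_)
      have hk' := hpos (k + 1) (by have := mem_range.mp hk; omega)
      simp only [hx]
      rw [cl_succ hl, show cf s y (k + 1) ^ (r - 1)
          = cf s y (k + 1) ^ (r - 2) * cf s y (k + 1) by
        conv_rhs => rw [← Real.rpow_one (cf s y (k + 1)), ← Real.rpow_mul hk'.le, one_mul,
          ← Real.rpow_add hk']
        congr 1
        ring, pow_succ]
      ring
    rw [e, h1 l hl]
    ring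
  have hC : ∑ k ∈ range (s.card + 1), (k : ℝ) * cf s y k ^ 2 * x k = 0 := by
    have e : ∀ k ∈ range (s.card + 1), (k : ℝ) * cf s y k ^ 2 * x k
        = ∑ l ∈ s, cf s y k * cl s y l k * x k := by
      intro k _
      rw [← Finset.sum_mul, ← Finset.mul_sum, sum_cl]
      ring
    rw [Finset.sum_congr rfl e, Finset.sum_comm]
    exact Finset.sum_eq_zero hB
  have I1 := identity_one (s := s) (y := y) (x := x) hA hB
  have I2 := identity_bezout (x := x) (n := s.card) (a := cf s y) g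
    (fun k hk => cf_eq_zero y hk) hA hC
  have I3 := identity_psi (s := s) (y := y) (x := x) ψ hA hB
  have hx' : ∀ k ∈ range s.card, x (k + 1)
      = -((cf s y (k + 1) / cf s y k) ^ (r - 2) * x k) := by
    intro k hk
    have hk1 := hpos (k + 1) (by have := mem_range.mp hk; omega)
    have hk0 := hpos k (by have := mem_range.mp hk; omega)
    simp only [hx]
    rw [Real.div_rpow hk1.le hk0.le, pow_succ]
    have : cf s y k ^ (r - 2) ≠ 0 := (Real.rpow_pos_of_pos hk0 _).ne'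
    field_simp
  have e : ∑ j ∈ range s.card, ∑ k ∈ range s.card,
      gg c g ψ s y j k * (cf s y (k + 1) / cf s y k) ^ (r - 2) * (x j * x k)
      = -(c * ∑ j ∈ range s.card, ∑ k ∈ range s.card, mm s y j k ^ 2 * (x j * x (k + 1)))
        - ∑ j ∈ range s.card, ∑ k ∈ range s.card,
          ((k : ℝ) + 1 - j) * bg (cf s y) g j k * (x j * x (k + 1))
        - ∑ j ∈ range s.card, ∑ k ∈ range s.card,
          (cf s y j * ∑ l ∈ s, cf (s.erase l) y j * ψ l k) * (x j * x (k + 1)) := by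
    rw [Finset.mul_sum, ← Finset.sum_neg_distrib, ← Finset.sum_sub_distrib,
      ← Finset.sum_sub_distrib]
    refine Finset.sum_congr rfl (fun j _ => ?_)
    rw [Finset.mul_sum, ← Finset.sum_neg_distrib, ← Finset.sum_sub_distrib,
      ← Finset.sum_sub_distrib]
    refine Finset.sum_congr rfl (fun k hk => ?_)
    rw [hx' k hk]
    unfold gg
    ring
  have e' : ∑ j ∈ range s.card, ∑ k ∈ range s.card,
      gg c g ψ s y j k * (cf s y (k + 1) / cf s y k) ^ (r - 2) *
        (((-1 : ℝ) ^ j * cf s y j ^ (r - 2)) * ((-1 : ℝ) ^ k * cf s y k ^ (r - 2)))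
      = ∑ j ∈ range s.card, ∑ k ∈ range s.card,
      gg c g ψ s y j k * (cf s y (k + 1) / cf s y k) ^ (r - 2) * (x j * x k) := rfl
  rw [e', e, I1, I2, I3, sub_zero, sub_zero]
  have : 0 ≤ c * ∑ l ∈ s, ∑ l' ∈ s,
      (∑ k ∈ range (s.card + 1), cl s y l k * cl s y l' k * x k) ^ 2 :=
    mul_nonneg hc (Finset.sum_nonneg (fun l _ => Finset.sum_nonneg (fun l' _ => sq_nonneg _)))
  linarith

/-- **A general certificate excludes extremal points.** -/
theorem noEP_of_cert {r : ℝ} (hr : 2 ≤ r) (hr3 : r < 3)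
    (H : ∀ (s : Finset ℕ) (y : ℕ → ℝ), s.Nonempty → (∀ l ∈ s, 0 < y l) →
      ∃ (c : ℝ) (g : ℕ → ℝ) (ψ : ℕ → ℕ → ℝ), 0 ≤ c ∧
        (∀ w : ℕ → ℝ, (∃ j < s.card, w j ≠ 0) →
          0 < ∑ j ∈ range s.card, ∑ k ∈ range s.card, gg c g ψ s y j k * (w j * w k)) ∧
        (∀ w : ℕ → ℝ, 0 ≤ ∑ j ∈ range s.card, ∑ k ∈ range s.card,
          gg c g ψ s y j k * (cf s y (k + 1) / cf s y k) * (w j * w k))) : NoEP r := by
  intro s y hy h0 h1
  rcases s.eq_empty_or_nonempty with rfl | hs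
  · rw [Finset.card_empty, zero_add, Finset.sum_range_one, cf_zero] at h0
    norm_num at h0
  obtain ⟨c, g, ψ, hc, hB, hS⟩ := H s y hs hy
  have hcard : 0 < s.card := Finset.card_pos.mpr hs
  have hpos : ∀ k ≤ s.card, 0 < cf s y k := fun k hk => cf_pos hy hk
  have hL := loewner (n := s.card) (G := gg c g ψ s y) (d := fun k => cf s y (k + 1) / cf s y k)
    (fun j hj => div_pos (hpos (j + 1) (by omega)) (hpos j (by omega)))
    (fun w hw => hB w hw) hS (s := r - 2) (by linarith) (by linarith)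
    (fun k => (-1 : ℝ) ^ k * cf s y k ^ (r - 2)) ⟨0, hcard, by simp [cf_zero]⟩
  have hU := ep_gg_nonpos hy hc g ψ h0 h1
  linarith

end Pool.Agent.P3R83
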