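import Mathlib
import Pool.Agent.P3R83.Gen

/-!
# P3R83: the kernel `U` of the degree-one certificate is positive definite

`U(j,k) = ∑_{i ≤ min(j,k)} a_i a_{N-i} (a_i a_{N-1-i} - a_{i-1} a_{N-i})`, `N = j+k+1`, is the Bezout
kernel of `∑ a_k^2 x^k` and `∑ a_k a_{k-1} x^k`; it equals `2 ∫_0^1 t κ_t(j,k) g_t(j,k) dt`.
-/

open Polynomial Finset

namespace Pool.Agent.P3R83

open Pool.Agent.ST50 Pool.Agent.ST11

/-- `a_{k-1}` with `a_{-1} = 0` -/
noncomputable def pa (a : ℕ → ℝ) (k : ℕ) : ℝ := if k = 0 then 0 else a (k - 1)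

/-- `t_k = a_{k-1}/a_k` -/
noncomputable def tt (a : ℕ → ℝ) (k : ℕ) : ℝ := pa a k / a k

/-- the kernel `U` (unnormalised) -/
noncomputable def uu (a : ℕ → ℝ) (j k : ℕ) : ℝ :=
  ∑ i ∈ range (min j k + 1), (a i * a (j + k + 1 - i)) *
    (a i * a (j + k - i) - pa a i * a (j + k + 1 - i))

lemma bg_tt (a : ℕ → ℝ) (j k : ℕ) : bg a (tt a) j k = uu a j k := by
  unfold bg uu
  refine Finset.sum_congr rfl (fun i hi => ?_)
  have hi' := mem_range.mp hi
  have hij : i ≤ j := by omega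
  have hik : i ≤ k := by omega
  have e1 : pa a (j + k + 1 - i) = a (j + k - i) := by
    unfold pa
    rw [if_neg (by omega), show j + k + 1 - i - 1 = j + k - i by omega]
  unfold tt
  rw [e1]
  by_cases h1 : a i = 0
  · rw [h1]; ring
  by_cases h2 : a (j + k + 1 - i) = 0
  · rw [h2]; ring
  field_simp

lemma uu_comm (a : ℕ → ℝ) (j k : ℕ) : uu a j k = uu a k j := by
  rw [← bg_tt, ← bg_tt, bg_comm]

/-- the kernel `U_t` along the flow -/
noncomputable def ut (g : ℝ → ℤ → ℤ → ℝ) (t : ℝ) (j k : ℕ) : ℝ :=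
  t * ∑ i ∈ range (j + 1), g t i ((j : ℤ) + k + 1 - i) *
    (g t i ((j : ℤ) + k - i) - g t ((i : ℤ) - 1) ((j : ℤ) + k + 1 - i))

lemma ut_deriv {s : Finset ℕ} {y : ℕ → ℝ} {g κ : ℝ → ℤ → ℤ → ℝ} (F : Flow s y g κ) (t : ℝ)
    (j k : ℕ) : HasDerivAt (fun t => ut g t j k) (2 * t * (κ t j k * g t j k)) t := by
  have h : HasDerivAt (fun t => ut g t j k)
      (1 * (∑ i ∈ range (j + 1), g t i ((j : ℤ) + k + 1 - i) *
        (g t i ((j : ℤ) + k - i) - g t ((i : ℤ) - 1) ((j : ℤ) + k + 1 - i)))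
      + t * ∑ i ∈ range (j + 1),
        ((κ t (i - 1) ((j : ℤ) + k + 1 - i) + κ t i ((j : ℤ) + k + 1 - i - 1)) *
        (g t i ((j : ℤ) + k - i) - g t ((i : ℤ) - 1) ((j : ℤ) + k + 1 - i))
        + g t i ((j : ℤ) + k + 1 - i) *
        ((κ t (i - 1) ((j : ℤ) + k - i) + κ t i ((j : ℤ) + k - i - 1)) -
          (κ t ((i : ℤ) - 1 - 1) ((j : ℤ) + k + 1 - i) +
            κ t ((i : ℤ) - 1) ((j : ℤ) + k + 1 - i - 1))))) t := by
    unfold ut
    refine (hasDerivAt_id t).mul (HasDerivAt.fun_sum (fun i _ => ?_))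
    have := (F.deriv t i ((j : ℤ) + k + 1 - i)).mul
      ((F.deriv t i ((j : ℤ) + k - i)).sub (F.deriv t ((i : ℤ) - 1) ((j : ℤ) + k + 1 - i)))
    exact this
  refine h.congr_deriv ?_
  rw [one_mul, Finset.mul_sum, ← Finset.sum_add_distrib]
  have e : ∀ i ∈ range (j + 1), g t i ((j : ℤ) + k + 1 - i) *
        (g t i ((j : ℤ) + k - i) - g t ((i : ℤ) - 1) ((j : ℤ) + k + 1 - i))
      + t * ((κ t (i - 1) ((j : ℤ) + k + 1 - i) + κ t i ((j : ℤ) + k + 1 - i - 1)) *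
        (g t i ((j : ℤ) + k - i) - g t ((i : ℤ) - 1) ((j : ℤ) + k + 1 - i))
        + g t i ((j : ℤ) + k + 1 - i) *
        ((κ t (i - 1) ((j : ℤ) + k - i) + κ t i ((j : ℤ) + k - i - 1)) -
          (κ t ((i : ℤ) - 1 - 1) ((j : ℤ) + k + 1 - i) +
            κ t ((i : ℤ) - 1) ((j : ℤ) + k + 1 - i - 1))))
      = 2 * t * (κ t (((i + 1 : ℕ) : ℤ) - 1) ((j : ℤ) + k + 1 - (i + 1 : ℕ)) *
          g t (((i + 1 : ℕ) : ℤ) - 1) ((j : ℤ) + k + 1 - (i + 1 : ℕ)))
        - 2 * t * (κ t ((i : ℤ) - 1) ((j : ℤ) + k + 1 - i) *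
          g t ((i : ℤ) - 1) ((j : ℤ) + k + 1 - i)) := by
    intro i _
    have r1 := F.rel t i ((j : ℤ) + k - i)
    have r2 := F.rel t i ((j : ℤ) + k - i - 1)
    have r3 := F.rel t ((i : ℤ) - 1) ((j : ℤ) + k - i)
    rw [show (j : ℤ) + k + 1 - i - 1 = (j : ℤ) + k - i by ring,
      show (((i + 1 : ℕ) : ℤ) - 1) = (i : ℤ) by push_cast; ring,
      show (j : ℤ) + k + 1 - ((i + 1 : ℕ) : ℤ) = (j : ℤ) + k - i by push_cast; ring]
    rw [show (j : ℤ) + k - i + 1 = (j : ℤ) + k + 1 - i by ring] at r1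
    rw [show (j : ℤ) + k - i - 1 + 1 = (j : ℤ) + k - i by ring] at r2
    rw [show (j : ℤ) + k - i + 1 = (j : ℤ) + k + 1 - i by ring] at r3
    push_cast at r1 r2 r3 ⊢
    linear_combination (g t i ((j : ℤ) + k + 1 - i)) * r2 + (g t i ((j : ℤ) + k + 1 - i)) * r3
      - (g t i ((j : ℤ) + k - i) + g t ((i : ℤ) - 1) ((j : ℤ) + k + 1 - i)) * r1
  rw [Finset.sum_congr rfl e, Finset.sum_range_sub
    (fun i : ℕ => 2 * t * (κ t ((i : ℤ) - 1) ((j : ℤ) + k + 1 - i) *
      g t ((i : ℤ) - 1) ((j : ℤ) + k + 1 - i)))]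
  rw [F.kneg t (((0 : ℕ) : ℤ) - 1) _ (by left; simp),
    show (((j + 1 : ℕ) : ℤ) - 1) = (j : ℤ) by push_cast; ring,
    show (j : ℤ) + k + 1 - ((j + 1 : ℕ) : ℤ) = (k : ℤ) by push_cast; ring]
  ring

lemma ut_zero (g : ℝ → ℤ → ℤ → ℝ) (j k : ℕ) : ut g 0 j k = 0 := by
  unfold ut
  rw [zero_mul]

lemma ut_one {s : Finset ℕ} {y : ℕ → ℝ} {g κ : ℝ → ℤ → ℤ → ℝ} (F : Flow s y g κ)
    {j k : ℕ} (hjk : j ≤ k) : ut g 1 j k = uu (cf s y) j k := by
  unfold ut uu
  rw [min_eq_left hjk, one_mul]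
  refine Finset.sum_congr rfl (fun i hi => ?_)
  have hi' := mem_range.mp hi
  rw [show (j : ℤ) + k + 1 - i = ((j + k + 1 - i : ℕ) : ℤ) by omega,
    show (j : ℤ) + k - i = ((j + k - i : ℕ) : ℤ) by omega, F.one, F.one]
  unfold pa
  rcases i with _ | i
  · rw [F.neg 1 _ _ (by left; simp)]
    simp
  · rw [show (((i + 1 : ℕ) : ℤ) - 1) = (i : ℤ) by push_cast; ring, F.one, if_neg (by omega),
      show i + 1 - 1 = i by omega]

lemma ut_one' {s : Finset ℕ} {y : ℕ → ℝ} {g κ : ℝ → ℤ → ℤ → ℝ} (F : Flow s y g κ)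
    (j k : ℕ) : ut g 1 j k = uu (cf s y) j k := by
  rcases le_total j k with h | h
  · exact ut_one F h
  · rw [uu_comm, ← ut_one F h]
    have hd : ∀ t ∈ Set.Ico (0 : ℝ) 1, HasDerivWithinAt (fun t => ut g t j k - ut g t k j)
        0 (Set.Ici t) t := by
      intro t ht
      have hkg := F.kgram t (by nlinarith [ht.1, ht.2])
      have hgg := F.gram t (by nlinarith [ht.1, ht.2])
      have hs : κ t j k = κ t k j := by
        obtain ⟨A, iA, f, hf⟩ := hkg
        rw [hf, hf]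
        exact Finset.sum_congr rfl (fun α _ => mul_comm _ _)
      have hs' : g t j k = g t k j := by
        obtain ⟨A, iA, f, hf⟩ := hgg
        rw [hf, hf]
        exact Finset.sum_congr rfl (fun α _ => mul_comm _ _)
      have := (ut_deriv F t j k).sub (ut_deriv F t k j)
      rw [hs, hs', sub_self] at this
      exact this.hasDerivWithinAt
    have hcont : ContinuousOn (fun t => ut g t j k - ut g t k j) (Set.Icc 0 1) := by
      intro t _
      exact ((ut_deriv F t j k).sub (ut_deriv F t k j)).continuousAt.continuousWithinAt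
    have := constant_of_has_deriv_right_zero hcont hd 1 ⟨zero_le_one, le_refl _⟩
    rw [ut_zero, ut_zero] at this
    linarith

lemma gram_mul_nonneg {K K' : ℤ → ℤ → ℝ} (h : IsGram K) (h' : IsGram K') (n : ℕ) (w : ℕ → ℝ) :
    0 ≤ ∑ j ∈ range n, ∑ k ∈ range n, (K j k * K' j k) * (w j * w k) := by
  obtain ⟨A, iA, f, hf⟩ := h
  obtain ⟨A', iA', f', hf'⟩ := h'
  have e : ∑ j ∈ range n, ∑ k ∈ range n, (K j k * K' j k) * (w j * w k)
      = ∑ α, ∑ β, (∑ j ∈ range n, f α j * f' β j * w j) ^ 2 := by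
    have e1 : ∀ j k : ℕ, (K j k * K' j k) * (w j * w k)
        = ∑ α, ∑ β, (f α j * f' β j * w j) * (f α k * f' β k * w k) := by
      intro j k
      rw [hf, hf', Finset.sum_mul_sum, Finset.sum_mul]
      refine Finset.sum_congr rfl (fun α _ => ?_)
      rw [Finset.sum_mul]
      refine Finset.sum_congr rfl (fun β _ => ?_)
      ring
    simp_rw [e1]
    rw [Finset.sum_congr rfl (fun j _ => Finset.sum_comm), Finset.sum_comm]
    refine Finset.sum_congr rfl (fun α _ => ?_)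
    rw [Finset.sum_congr rfl (fun j _ => Finset.sum_comm), Finset.sum_comm]
    refine Finset.sum_congr rfl (fun β _ => ?_)
    rw [← Finset.sum_mul_sum, sq]
  rw [e]
  exact Finset.sum_nonneg (fun α _ => Finset.sum_nonneg (fun β _ => _root_.sq_nonneg _))

theorem uu_pos (s : Finset ℕ) (y : ℕ → ℝ) (hy : ∀ l ∈ s, 0 < y l) (w : ℕ → ℝ)
    (hw : ∃ j < s.card, w j ≠ 0) :
    0 < ∑ j ∈ range s.card, ∑ k ∈ range s.card, uu (cf s y) j k * (w j * w k) := by
  obtain ⟨g, κ, F⟩ := exists_flow s y hy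
  set n := s.card
  set Φ : ℝ → ℝ := fun t => ∑ j ∈ range n, ∑ k ∈ range n, ut g t j k * (w j * w k) with hΦ
  set Q : ℝ → ℝ := fun t => ∑ j ∈ range n, ∑ k ∈ range n, (κ t j k * g t j k) * (w j * w k)
    with hQ
  have hd : ∀ t, HasDerivAt Φ (2 * t * Q t) t := by
    intro t
    have : HasDerivAt Φ (∑ j ∈ range n, ∑ k ∈ range n,
        2 * t * (κ t j k * g t j k) * (w j * w k)) t :=
      HasDerivAt.fun_sum (fun j _ => HasDerivAt.fun_sum (fun k _ =>
        (ut_deriv F t j k).mul_const _))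
    refine this.congr_deriv ?_
    rw [hQ, Finset.mul_sum]
    refine Finset.sum_congr rfl (fun j _ => ?_)
    rw [Finset.mul_sum]
    refine Finset.sum_congr rfl (fun k _ => by ring)
  have hgc : ∀ j k, Continuous (fun t => g t j k) := fun j k =>
    continuous_iff_continuousAt.mpr (fun t => (F.deriv t j k).continuousAt)
  have hQc : Continuous Q := by
    refine continuous_finsetSum _ (fun j _ => continuous_finsetSum _ (fun k _ => ?_))
    have h1 := F.cont j k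
    have h2 := hgc j k
    fun_prop
  have hQnn : ∀ t, 0 ≤ t → t ≤ 1 → 0 ≤ Q t := by
    intro t h0 h1
    exact gram_mul_nonneg (F.kgram t (by nlinarith)) (F.gram t (by nlinarith)) n w
  have hQ0 : 0 < Q 0 := by
    have e : Q 0 = ∑ j ∈ range n, (κ 0 j j * g 0 j j) * (w j * w j) := by
      simp only [hQ]
      refine Finset.sum_congr rfl (fun j hj => ?_)
      rw [Finset.sum_eq_single_of_mem j hj]
      intro k _ hk
      rw [F.kzero_off j k (by exact_mod_cast hk.symm)]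
      ring
    rw [e]
    obtain ⟨j, hj, hwj⟩ := hw
    refine Finset.sum_pos' (fun i _ => ?_) ⟨j, mem_range.mpr hj, ?_⟩
    · exact mul_nonneg (mul_nonneg (F.kzero_nonneg _) (F.zero_nonneg _)) (mul_self_nonneg _)
    · have h1 := F.kzero_pos j hj
      have h2 := F.zero_pos j hj.le
      exact mul_pos (mul_pos h1 h2) (mul_self_pos.mpr hwj)
  have hΦ0 : Φ 0 = 0 := by
    simp only [hΦ, ut_zero]
    simp
  have hΦ1 : Φ 1 = ∑ j ∈ range n, ∑ k ∈ range n, uu (cf s y) j k * (w j * w k) := by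
    simp only [hΦ, ut_one' F]
  have hΦc : Continuous Φ := continuous_iff_continuousAt.mpr (fun t => (hd t).continuousAt)
  obtain ⟨δ, hδ0, hδ⟩ : ∃ δ > 0, ∀ t, |t| < δ → 0 < Q t := by
    have := hQc.continuousAt (x := 0)
    have h := this.eventually (lt_mem_nhds hQ0)
    obtain ⟨δ, hδ, h'⟩ := Metric.eventually_nhds_iff.mp h
    exact ⟨δ, hδ, fun t ht => h' (by simpa [Real.dist_eq] using ht)⟩
  set δ' := min (δ / 2) 1 with hδ'
  have hδ'0 : 0 < δ' := lt_min (by linarith) one_pos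
  have hδ'1 : δ' ≤ 1 := min_le_right _ _
  have hδ'δ : δ' < δ := lt_of_le_of_lt (min_le_left _ _) (by linarith)
  have hstrict : StrictMonoOn Φ (Set.Icc 0 δ') := by
    refine strictMonoOn_of_deriv_pos (convex_Icc _ _) hΦc.continuousOn (fun t ht => ?_)
    rw [interior_Icc] at ht
    rw [(hd t).deriv]
    have : 0 < Q t := hδ t (by rw [abs_of_pos ht.1]; linarith [ht.2])
    have := ht.1
    positivity
  have hmono : MonotoneOn Φ (Set.Icc 0 1) := by
    refine monotoneOn_of_deriv_nonneg (convex_Icc _ _) hΦc.continuousOn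
      (fun t _ => (hd t).differentiableAt.differentiableWithinAt) (fun t ht => ?_)
    rw [interior_Icc] at ht
    rw [(hd t).deriv]
    exact mul_nonneg (by linarith [ht.1]) (hQnn t ht.1.le ht.2.le)
  have h1 := hstrict ⟨le_refl _, hδ'0.le⟩ ⟨hδ'0.le, le_refl _⟩ hδ'0
  have h2 := hmono ⟨hδ'0.le, hδ'1⟩ ⟨zero_le_one, le_refl _⟩ hδ'1
  rw [← hΦ1]
  rw [hΦ0] at h1
  exact lt_of_lt_of_le h1 h2

/-- `(a_j a_k) m(j,k)` has a nonnegative quadratic form -/
lemma hmm_nonneg (s : Finset ℕ) (y : ℕ → ℝ) (hy : ∀ l ∈ s, 0 < y l) (w : ℕ → ℝ) :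
    0 ≤ ∑ j ∈ range s.card, ∑ k ∈ range s.card,
      (cf s y j * cf s y k * mm s y j k) * (w j * w k) := by
  have e1 : ∀ j k : ℕ, (cf s y j * cf s y k * mm s y j k) * (w j * w k)
      = ∑ l ∈ s, y l * ((cf s y j * cf (s.erase l) y j * w j) *
          (cf s y k * cf (s.erase l) y k * w k)) := by
    intro j k
    unfold mm
    rw [Finset.mul_sum, Finset.sum_mul]
    refine Finset.sum_congr rfl (fun l _ => ?_)
    ring
  have e : ∑ j ∈ range s.card, ∑ k ∈ range s.card,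
      (cf s y j * cf s y k * mm s y j k) * (w j * w k)
      = ∑ l ∈ s, y l * (∑ j ∈ range s.card, cf s y j * cf (s.erase l) y j * w j) ^ 2 := by
    simp_rw [e1]
    rw [Finset.sum_congr rfl (fun j _ => Finset.sum_comm), Finset.sum_comm]
    refine Finset.sum_congr rfl (fun l _ => ?_)
    rw [sq, Finset.sum_mul_sum, Finset.mul_sum]
    refine Finset.sum_congr rfl (fun j _ => ?_)
    rw [Finset.mul_sum]
  rw [e]
  exact Finset.sum_nonneg (fun l hl => mul_nonneg (hy l hl).le (sq_nonneg _))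

/-- the kernel of the degree-one certificate:
`G = c a_j a_k m(j,k) + (k + 1 - j) U(j,k)` -/
noncomputable def g1 (c : ℝ) (s : Finset ℕ) (y : ℕ → ℝ) (j k : ℕ) : ℝ :=
  c * (cf s y j * cf s y k * mm s y j k) + ((k : ℝ) + 1 - j) * uu (cf s y) j k

/-- `P3' ≥ 0`: the quadratic form of `G diag(τ)`, `τ_k = a_{k+1}/a_k`; in symmetric form
`(τ_j + τ_k)(c h m + U) - (k - j)(τ_j - τ_k) U ≥ 0` with `h = a_j a_k`. -/
def P3Nonneg (c : ℝ) (s : Finset ℕ) (y : ℕ → ℝ) : Prop :=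
  ∀ w : ℕ → ℝ, 0 ≤ ∑ j ∈ range s.card, ∑ k ∈ range s.card,
    g1 c s y j k * (cf s y (k + 1) / cf s y k) * (w j * w k)

lemma g1_eq_gg (c : ℝ) (s : Finset ℕ) (y : ℕ → ℝ) (j k : ℕ) :
    gg 0 (tt (cf s y)) (fun l k => c * (y l * cf (s.erase l) y k * cf s y k)) s y j k
      = g1 c s y j k := by
  unfold gg g1 mm
  rw [bg_tt]
  have e : cf s y j * ∑ l ∈ s, cf (s.erase l) y j *
      (c * (y l * cf (s.erase l) y k * cf s y k)) = c * (cf s y j * cf s y k *
        ∑ l ∈ s, y l * (cf (s.erase l) y j * cf (s.erase l) y k)) := by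
    rw [Finset.mul_sum, Finset.mul_sum, Finset.mul_sum]
    refine Finset.sum_congr rfl (fun l _ => by ring)
  rw [e]
  ring

lemma g1_pos {c : ℝ} (hc : 0 ≤ c) (s : Finset ℕ) (y : ℕ → ℝ) (hy : ∀ l ∈ s, 0 < y l)
    (w : ℕ → ℝ) (hw : ∃ j < s.card, w j ≠ 0) :
    0 < ∑ j ∈ range s.card, ∑ k ∈ range s.card, g1 c s y j k * (w j * w k) := by
  have h1 := uu_pos s y hy w hw
  have h2 := hmm_nonneg s y hy w
  have h3 := antisymm_sum_zero (n := s.card) (f := uu (cf s y)) (uu_comm _) w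
  have e : ∑ j ∈ range s.card, ∑ k ∈ range s.card, g1 c s y j k * (w j * w k)
      = c * (∑ j ∈ range s.card, ∑ k ∈ range s.card,
          (cf s y j * cf s y k * mm s y j k) * (w j * w k))
        + ∑ j ∈ range s.card, ∑ k ∈ range s.card, uu (cf s y) j k * (w j * w k)
        + ∑ j ∈ range s.card, ∑ k ∈ range s.card,
          ((k : ℝ) - j) * uu (cf s y) j k * (w j * w k) := by
    rw [Finset.mul_sum, ← Finset.sum_add_distrib, ← Finset.sum_add_distrib]
    refine Finset.sum_congr rfl (fun j _ => ?_)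
    rw [Finset.mul_sum, ← Finset.sum_add_distrib, ← Finset.sum_add_distrib]
    refine Finset.sum_congr rfl (fun k _ => ?_)
    unfold g1
    ring
  rw [e, h3, add_zero]
  have := mul_nonneg hc h2
  linarith

/-- **The degree-one certificate:** `P3' ≥ 0` alone excludes extremal points for `2 ≤ r < 3`. -/
theorem noEP_of_P3 {r : ℝ} (hr : 2 ≤ r) (hr3 : r < 3)
    (H : ∀ (s : Finset ℕ) (y : ℕ → ℝ), s.Nonempty → (∀ l ∈ s, 0 < y l) →
      ∃ c : ℝ, 0 ≤ c ∧ P3Nonneg c s y) : NoEP r :=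
  noEP_of_cert hr hr3 (fun s y hs hy => by
    obtain ⟨c, hc, h⟩ := H s y hs hy
    refine ⟨0, tt (cf s y), fun l k => c * (y l * cf (s.erase l) y k * cf s y k), le_refl _,
      fun w hw => ?_, fun w => ?_⟩
    · simp_rw [g1_eq_gg]
      exact g1_pos hc s y hy w hw
    · simp_rw [g1_eq_gg]
      exact h w)

end Pool.Agent.P3R83
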